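import Pool.Agent.R624.WR

/-!
# The totalizing jump and the meet of Weihrauch degrees

Problem MP_1d3aa8_lc, Q1, answered in the negative: if the meet of the totalizing jumps of `f` and `g`
is reducible to the totalizing jump of the meet of `f` and `g`, then `f` and `g` are comparable.

Proof.  Let `U f` be the problem of the applications of `f`; the totalizing jump of `f` is the
totalization of `U f`.  Suppose that the meet of `Tot (U f)` and `Tot (U g)` is reduced to `Tot m` by
`H`, `Ψ`, and `m` is reduced to the meet of `f` and `g` by `K`, `L`.  By the recursion theorem there is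
an index `c` of functionals which know `c`.  The instances are `c, s, P` with `s = 0` on the side of `f`
and `s = 1` on the side of `g`.  Here `P` is `0, …, 0, 1 + ⟨t, d⟩, x`.  If `s = t`, the functional
computes `x`, and it computes `d, a` from the solution `a`.  If `s ≠ t`, the functional computes the
component of the query `K (H …)` on its side, and from a solution `b` it computes the answer `v` of the
reduction for this solution, and then `r, v 2, v 3, …`, where `r` is `0` if the label `v 0` is not `s`,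
and it is greater than `v 1` if the label is `s`.  For `P = 0, 0, …` some answer of the reduction has a
label `t` and a first number `w`; now let `d = w + 1`.  Then the query has to be an instance of `m`, and
by induction on `r` the sequence `v 2, v 3, …` is a solution of `x`.
-/

set_option autoImplicit false

namespace Pool.Agent.Results.MP_1d3aa8_lc.NoDistributivity

open Pool.Agent.Helper446
open Pool.Agent.R624.WR
open Pool.Agent.Helper446.RE (cid cconst ccomp cfst csnd cpair cadd csub cmul cmin cmax csucc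
  cappend ccons clength cgetElem cencode cdecode csome cisSome cnot cand cor cunpair cnatpair
  cmapsnd cmapfst ccond)

/-- decoding of `P` -/
def Dr (ζ w : ℕ → ℕ) : Prop := ∃ i t d, (∀ j < i, ζ (2 + j) = 0) ∧ ζ (2 + i) = 1 + Nat.pair t d ∧
  w = cons t (cons d fun n => ζ (3 + i + n))

theorem cfl_Dr : Cfl Dr := by
  refine ⟨{a | ∃ i t d, (∀ j < i, a.1[2 + j]? = some 0) ∧ a.1[2 + i]? = some (1 + Nat.pair t d) ∧
    ((a.2.1 = 0 ∧ a.2.2 = t) ∨ (a.2.1 = 1 ∧ a.2.2 = d) ∨
      (2 ≤ a.2.1 ∧ a.1[1 + i + a.2.1]? = some a.2.2))}, ?_, ?_⟩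
  · refine RE.exN (p := fun (a : Ax) (i : ℕ) => ∃ t d, (∀ j < i, a.1[2 + j]? = some 0) ∧
      a.1[2 + i]? = some (1 + Nat.pair t d) ∧ ((a.2.1 = 0 ∧ a.2.2 = t) ∨ (a.2.1 = 1 ∧ a.2.2 = d) ∨
      (2 ≤ a.2.1 ∧ a.1[1 + i + a.2.1]? = some a.2.2))) ?_
    refine RE.exN (p := fun (x : Ax × ℕ) (t : ℕ) => ∃ d, (∀ j < x.2, x.1.1[2 + j]? = some 0) ∧
      x.1.1[2 + x.2]? = some (1 + Nat.pair t d) ∧ ((x.1.2.1 = 0 ∧ x.1.2.2 = t) ∨
      (x.1.2.1 = 1 ∧ x.1.2.2 = d) ∨ (2 ≤ x.1.2.1 ∧ x.1.1[1 + x.2 + x.1.2.1]? = some x.1.2.2))) ?_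
    refine RE.exN (p := fun (x : (Ax × ℕ) × ℕ) (d : ℕ) => (∀ j < x.1.2, x.1.1.1[2 + j]? = some 0) ∧
      x.1.1.1[2 + x.1.2]? = some (1 + Nat.pair x.2 d) ∧ ((x.1.1.2.1 = 0 ∧ x.1.1.2.2 = x.2) ∨
      (x.1.1.2.1 = 1 ∧ x.1.1.2.2 = d) ∨
      (2 ≤ x.1.1.2.1 ∧ x.1.1.1[1 + x.1.2 + x.1.1.2.1]? = some x.1.1.2.2))) ?_
    refine RE.and ?_ (RE.and ?_ (RE.or ?_ (RE.or ?_ ?_)))
    · exact RE.all_lt (p := fun (x : ((Ax × ℕ) × ℕ) × ℕ) (j : ℕ) => x.1.1.1.1[2 + j]? = some 0)
        (RE.eq (by fun_prop) (by fun_prop)) (by fun_prop)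
    · exact RE.eq (by fun_prop) (by fun_prop)
    · exact RE.and (RE.eq (by fun_prop) (by fun_prop)) (RE.eq (by fun_prop) (by fun_prop))
    · exact RE.and (RE.eq (by fun_prop) (by fun_prop)) (RE.eq (by fun_prop) (by fun_prop))
    · exact RE.and (RE.le (by fun_prop) (by fun_prop)) (RE.eq (by fun_prop) (by fun_prop))
  · rintro ζ w ⟨i, t, d, h1, h2, rfl⟩ n m
    constructor
    · rintro rfl
      refine ⟨3 + i + n, i, t, d, fun j hj => ?_, ?_, ?_⟩
      · rw [seg_getElem? ζ (by omega), h1 j hj]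
      · rw [seg_getElem? ζ (by omega), h2]
      · rcases n with _ | _ | n
        · exact Or.inl ⟨rfl, rfl⟩
        · exact Or.inr (Or.inl ⟨rfl, rfl⟩)
        · refine Or.inr (Or.inr ⟨?_, ?_⟩)
          · show 2 ≤ n + 1 + 1
            omega
          show (seg ζ _)[1 + i + (n + 1 + 1)]? = some (ζ (3 + i + n))
          rw [seg_getElem? ζ (by omega)]
          congr 2
          omega
    · rintro ⟨k, i', t', d', h3, h4, h5⟩
      obtain ⟨-, h6⟩ := seg_getElem?_some h4
      have h7 : ∀ j < i', ζ (2 + j) = 0 := fun j hj => (seg_getElem?_some (h3 j hj)).2.symm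
      have h8 : i = i' := by
        rcases lt_trichotomy i i' with h | h | h
        · have := h7 i h
          omega
        · exact h
        · have := h1 i' h
          omega
      subst h8
      have h9 : Nat.pair t d = Nat.pair t' d' := by omega
      obtain ⟨rfl, rfl⟩ := Nat.pair_eq_pair.1 h9
      rcases h5 with ⟨h, h'⟩ | ⟨h, h'⟩ | ⟨h, h'⟩
      · have h0 : n = 0 := h
        subst h0
        exact h'.symm
      · have h0 : n = 1 := h
        subst h0
        exact h'.symm
      · have h0 : 2 ≤ n := h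
        obtain ⟨n, rfl⟩ := Nat.exists_eq_add_of_le h0
        obtain ⟨-, h10⟩ := seg_getElem?_some h'
        have h11 : m = ζ (1 + i + (2 + n)) := h10
        have h12 : 2 + n = n + 1 + 1 := by omega
        rw [h11, h12]
        show ζ (3 + i + n) = _
        congr 1
        omega

/-- the instance of the meet -/
def uu (A : ℕ → ℕ) : ℕ → ℕ :=
  pr (cons (A 0) (cons 0 (tl (tl A)))) (cons (A 0) (cons 1 (tl (tl A))))

/-- a component of a pair -/
def cmp (s : ℕ) (τ : ℕ → ℕ) : ℕ → ℕ := if s = 0 then fst τ else snd τ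

/-- the coded answer -/
def out (s : ℕ) (v : ℕ → ℕ) : ℕ → ℕ := cons (if v 0 = s then v 1 + 1 else 0) (tl (tl v))

/-- the first digits of `uu` -/
def uG (x : ℕ × ℕ) : ℕ := if x.1 = 1 then Nat.pair 0 1 else Nat.pair x.2 x.2

theorem uG_comp {α : Type*} [Primcodable α] {f g : α → ℕ} (hf : Computable f) (hg : Computable g) :
    Computable fun a => uG (f a, g a) :=
  RE.cite (RE.cp_eq (by fun_prop) (by fun_prop)) (by fun_prop) (by fun_prop)

theorem uu_eq (A : ℕ → ℕ) (n : ℕ) : uu A n = uG (n, A n) := by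
  rcases n with _ | _ | n
  · rfl
  · rfl
  · simp [uu, uG, pr, cons, tl]

/-- the functional for the instances -/
def R0 (H K : Set Ax) (ζ y : ℕ → ℕ) : Prop := ∃ w, Dr ζ w ∧ ((w 0 = ζ 1 ∧ y = tl (tl w)) ∨
  (w 0 ≠ ζ 1 ∧ ∃ y0, Computes H (uu ζ) y0 ∧ ∃ τ, Computes K y0 τ ∧ y = cmp (ζ 1) τ))

theorem cfl_R0 {H K : Set Ax} (hH : CE H) (hK : CE K) : Cfl (R0 H K) := by
  -- on `env = pr ζ w`
  have hP : ComputablePred fun σ : List ℕ =>
      (σ[0]?.getD 0).unpair.2 = (σ[1]?.getD 0).unpair.1 := by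
    refine RE.cp_eq ?_ ?_
    · have h : Computable fun σ : List ℕ => σ[0]?.getD 0 :=
        Computable.option_getD (by fun_prop) (Computable.const 0)
      fun_prop
    · have h : Computable fun σ : List ℕ => σ[1]?.getD 0 :=
        Computable.option_getD (by fun_prop) (Computable.const 0)
      fun_prop
  have e1 : Cfl fun env y => y = tl (tl (snd env)) := by
    refine Bas.cfl ⟨fun x => x.2.1.unpair.2, fun n => n + 1 + 1, fun n => n, by fun_prop,
      by fun_prop, by fun_prop, fun _ _ => rfl⟩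
  have e2 : Cfl fun env y0 => Computes H (uu (fst env)) y0 := by
    refine (cfl_of_ce hH).pre ⟨fun x => uG (x.1, x.2.1.unpair.1), fun n => n, fun n => n,
      uG_comp (by fun_prop) (by fun_prop), by fun_prop, by fun_prop, fun p n => uu_eq _ _⟩
  have e3 : Cfl fun E1 τ => Computes K (snd E1) τ := (cfl_of_ce hK).pre bas_snd
  have e4 : Cfl fun v y => y = cmp (fst (fst (fst v)) 1) (snd v) := by
    refine Bas.cfl ⟨fun x => if x.2.2.unpair.1.unpair.1.unpair.1 = 0 then x.2.1.unpair.2.unpair.1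
      else x.2.1.unpair.2.unpair.2, fun n => n, fun _ => 1, ?_, by fun_prop, by fun_prop,
      fun p n => ?_⟩
    · exact RE.cite (RE.cp_eq (by fun_prop) (by fun_prop)) (by fun_prop) (by fun_prop)
    · show (if (p 1).unpair.1.unpair.1.unpair.1 = 0 then fst (snd p) else snd (snd p)) n =
        if (p 1).unpair.1.unpair.1.unpair.1 = 0 then (p n).unpair.2.unpair.1
        else (p n).unpair.2.unpair.2
      by_cases h : (p 1).unpair.1.unpair.1.unpair.1 = 0
      · rw [if_pos h, if_pos h]
        rfl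
      · rw [if_neg h, if_neg h]
        rfl
  refine (cfl_Dr.bind (e1.cases (e2.bind (e3.bind e4)) hP 2)).mono ?_
  rintro ζ y ⟨w, h1, h2⟩
  have hseg : (((seg (pr ζ w) 2)[0]?.getD 0).unpair.2 = ((seg (pr ζ w) 2)[1]?.getD 0).unpair.1) ↔
      w 0 = ζ 1 := by
    rw [seg_getElem? _ (by omega), seg_getElem? _ (by omega)]
    simp [pr]
  refine ⟨w, h1, ?_⟩
  rw [hseg]
  rcases h2 with ⟨h2, h3⟩ | ⟨h2, y0, h3, τ, h4, h5⟩
  · exact Or.inl ⟨h2, by simpa using h3⟩
  · exact Or.inr ⟨h2, y0, by simpa using h3, τ, by simpa using h4, by simpa using h5⟩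

/-- the functional for the solutions, on the pair of the instance and the solution -/
def R1 (H L Ψ : Set Ax) (ξ y : ℕ → ℕ) : Prop := ∃ w, Dr (fst ξ) w ∧
  ((w 0 = fst ξ 1 ∧ y = cons (w 1) (snd ξ)) ∨
  (w 0 ≠ fst ξ 1 ∧ ∃ y0, Computes H (uu (fst ξ)) y0 ∧
    ∃ s, Computes L (pr y0 (cons (fst ξ 1) (snd ξ))) s ∧
    ∃ v, Computes Ψ (pr (uu (fst ξ)) s) v ∧ y = out (fst ξ 1) v))

theorem cfl_R1 {H L Ψ : Set Ax} (hH : CE H) (hL : CE L) (hΨ : CE Ψ) : Cfl (R1 H L Ψ) := by
  -- on `env = pr ξ w`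
  have hP : ComputablePred fun σ : List ℕ =>
      (σ[0]?.getD 0).unpair.2 = (σ[1]?.getD 0).unpair.1.unpair.1 := by
    refine RE.cp_eq ?_ ?_
    · have h : Computable fun σ : List ℕ => σ[0]?.getD 0 :=
        Computable.option_getD (by fun_prop) (Computable.const 0)
      fun_prop
    · have h : Computable fun σ : List ℕ => σ[1]?.getD 0 :=
        Computable.option_getD (by fun_prop) (Computable.const 0)
      fun_prop
  have e1 : Cfl fun env y => y = cons (snd env 1) (snd (fst env)) := by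
    refine Bas.cfl ⟨fun x => if x.1 = 0 then x.2.2.unpair.2 else x.2.1.unpair.1.unpair.2,
      fun n => n - 1, fun _ => 1, ?_, by fun_prop, by fun_prop, fun p n => ?_⟩
    · exact RE.cite (RE.cp_eq (by fun_prop) (by fun_prop)) (by fun_prop) (by fun_prop)
    · cases n with
      | zero => rfl
      | succ n => simp [fst, snd]
  have e2 : Cfl fun env y0 => Computes H (uu (fst (fst env))) y0 := by
    refine (cfl_of_ce hH).pre ⟨fun x => uG (x.1, x.2.1.unpair.1.unpair.1), fun n => n, fun n => n,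
      uG_comp (by fun_prop) (by fun_prop), by fun_prop, by fun_prop, fun p n => uu_eq _ _⟩
  -- on `E = pr env y0`
  have e3 : Cfl fun E s => Computes L (pr (snd E) (cons (fst (fst (fst E)) 1)
      (snd (fst (fst E))))) s := by
    refine (cfl_of_ce hL).pre ⟨fun x => Nat.pair x.2.1.unpair.2 (if x.1 = 0 then
      x.2.2.unpair.1.unpair.1.unpair.1 else x.2.2.unpair.1.unpair.1.unpair.2), fun n => n,
      fun n => if n = 0 then 1 else n - 1, ?_, by fun_prop, ?_, fun p n => ?_⟩
    · have h : Computable fun x : ℕ × ℕ × ℕ => if x.1 = 0 then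
          x.2.2.unpair.1.unpair.1.unpair.1 else x.2.2.unpair.1.unpair.1.unpair.2 :=
        RE.cite (RE.cp_eq (by fun_prop) (by fun_prop)) (by fun_prop) (by fun_prop)
      fun_prop
    · exact RE.cite (RE.cp_eq (by fun_prop) (by fun_prop)) (by fun_prop) (by fun_prop)
    · cases n with
      | zero => rfl
      | succ n => simp [pr, fst, snd]
  -- on `E = pr (pr env y0) s`
  have e4 : Cfl fun E v => Computes Ψ (pr (uu (fst (fst (fst (fst E))))) (snd E)) v := by
    refine (cfl_of_ce hΨ).pre ⟨fun x => Nat.pair (uG (x.1,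
      x.2.1.unpair.1.unpair.1.unpair.1.unpair.1)) x.2.1.unpair.2, fun n => n, fun n => n, ?_,
      by fun_prop, by fun_prop, fun p n => ?_⟩
    · have h : Computable fun x : ℕ × ℕ × ℕ => uG (x.1,
          x.2.1.unpair.1.unpair.1.unpair.1.unpair.1) := uG_comp (by fun_prop) (by fun_prop)
      fun_prop
    · show Nat.pair (uu _ n) _ = _
      rw [uu_eq]
      rfl
  -- on `E = pr (pr (pr env y0) s) v`
  have e5 : Cfl fun E y => y = out (fst (fst (fst (fst (fst E)))) 1) (snd E) := by
    refine Bas.cfl ⟨fun x => if x.1 = 0 then (if x.2.1.unpair.2 =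
      x.2.2.unpair.1.unpair.1.unpair.1.unpair.1.unpair.1 then x.2.2.unpair.2 + 1 else 0)
      else x.2.1.unpair.2, fun n => if n = 0 then 0 else n + 1, fun _ => 1, ?_, ?_, by fun_prop,
      fun p n => ?_⟩
    · refine RE.cite (RE.cp_eq (by fun_prop) (by fun_prop)) ?_ (by fun_prop)
      exact RE.cite (RE.cp_eq (by fun_prop) (by fun_prop)) (by fun_prop) (by fun_prop)
    · exact RE.cite (RE.cp_eq (by fun_prop) (by fun_prop)) (by fun_prop) (by fun_prop)
    · cases n with
      | zero => rfl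
      | succ n => simp [out, tl, snd]
  refine ((cfl_Dr.pre bas_fst).bind (e1.cases (e2.bind (e3.bind (e4.bind e5))) hP 2)).mono ?_
  rintro ξ y ⟨w, h1, h2⟩
  have hseg : (((seg (pr ξ w) 2)[0]?.getD 0).unpair.2 =
      ((seg (pr ξ w) 2)[1]?.getD 0).unpair.1.unpair.1) ↔ w 0 = fst ξ 1 := by
    rw [seg_getElem? _ (by omega), seg_getElem? _ (by omega)]
    simp [pr, fst]
  refine ⟨w, h1, ?_⟩
  rw [hseg]
  rcases h2 with ⟨h2, h3⟩ | ⟨h2, y0, h3, s, h4, v, h5, h6⟩
  · exact Or.inl ⟨h2, by simpa using h3⟩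
  · exact Or.inr ⟨h2, y0, by simpa using h3, s, by simpa using h4, v, by simpa using h5,
      by simpa using h6⟩

/-- from the index and the pair of the remaining instance and the solution to the pair -/
def rearr (ζ : ℕ → ℕ) : ℕ → ℕ := pr (cons (ζ 0) (fst (tl ζ))) (snd (tl ζ))

theorem bas_rearr : Bas rearr := by
  refine ⟨fun x => Nat.pair (if x.1 = 0 then x.2.1 else x.2.1.unpair.1) x.2.2.unpair.2,
    fun n => n, fun n => n + 1, ?_, by fun_prop, by fun_prop, fun p n => ?_⟩
  · have h : Computable fun x : ℕ × ℕ × ℕ => if x.1 = 0 then x.2.1 else x.2.1.unpair.1 :=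
      RE.cite (RE.cp_eq (by fun_prop) (by fun_prop)) (by fun_prop) (by fun_prop)
    fun_prop
  · cases n with
    | zero => rfl
    | succ n => simp [rearr, pr, fst, snd, tl]

/-- the functionals which know their index -/
theorem exists_index {Z0 Z1 : Set Ax} (h0 : CE Z0) (h1 : CE Z1) :
    ∃ c, (∀ π y, Computes Z0 (cons c π) y → Computes (V c 0) π y) ∧
      ∀ π y, Computes Z1 (cons c π) y → Computes (V c 1) π y := by
  have hR : REPred fun x : ℕ × (ℕ × Ax) =>
      (x.2.1 = 0 ∧ ∃ κ β : List ℕ, κ ++ β = x.1 :: x.2.2.1 ∧ (κ, x.2.2.2.1, x.2.2.2.2) ∈ Z0) ∨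
      (x.2.1 = 1 ∧ ∃ κ β : List ℕ, κ ++ β = x.1 :: x.2.2.1 ∧ (κ, x.2.2.2.1, x.2.2.2.2) ∈ Z1) := by
    refine RE.or (RE.and (RE.eq (by fun_prop) (by fun_prop)) ?_)
      (RE.and (RE.eq (by fun_prop) (by fun_prop)) ?_)
    · exact re_pre h0 (σ := fun x : ℕ × (ℕ × Ax) => x.1 :: x.2.2.1) (n := fun x => x.2.2.2.1)
        (m := fun x => x.2.2.2.2) (by fun_prop) (by fun_prop) (by fun_prop)
    · exact re_pre h1 (σ := fun x : ℕ × (ℕ × Ax) => x.1 :: x.2.2.1) (n := fun x => x.2.2.2.1)
        (m := fun x => x.2.2.2.2) (by fun_prop) (by fun_prop) (by fun_prop)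
  obtain ⟨c, hc⟩ := recursion hR
  have key : ∀ (Z : Set Ax) (j : ℕ), (∀ a : Ax, a ∈ V c j ↔
      ∃ κ β : List ℕ, κ ++ β = c :: a.1 ∧ (κ, a.2.1, a.2.2) ∈ Z) →
      ∀ π y, Computes Z (cons c π) y → Computes (V c j) π y := by
    intro Z j hV π y hy n m
    rw [hy n m]
    constructor
    · rintro ⟨k, hk⟩
      refine ⟨k, (hV _).2 ?_⟩
      obtain ⟨β, hβ⟩ := seg_append (cons c π) (Nat.le_succ k)
      exact ⟨seg (cons c π) k, β, by rw [hβ, seg_cons], hk⟩
    · rintro ⟨k, hk⟩
      obtain ⟨κ, β, h3, h4⟩ := (hV _).1 hk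
      refine pre_seg.1 ⟨k + 1, κ, β, ?_, h4⟩
      rw [seg_cons]
      exact h3
  refine ⟨c, key Z0 0 fun a => ?_, key Z1 1 fun a => ?_⟩
  · have := hc (0, a)
    simp only [true_and, zero_ne_one, false_and, or_false] at this
    exact this
  · have := hc (1, a)
    simp only [one_ne_zero, false_and, true_and, false_or] at this
    exact this

/-- the side of the meet -/
def side (f g : Problem) (s : ℕ) : Problem := if s = 0 then f else g

theorem mem_meet {f g : Problem} {w y : ℕ → ℕ} : y ∈ meet f g w ↔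
    (∀ s < 2, (side f g s (cmp s w)).Nonempty) ∧ y 0 < 2 ∧ tl y ∈ side f g (y 0) (cmp (y 0) w) := by
  constructor
  · rintro ⟨h1, h2, h3⟩
    refine ⟨fun s hs => ?_, ?_⟩
    · obtain rfl | rfl : s = 0 ∨ s = 1 := by omega
      · exact h1
      · exact h2
    · rcases h3 with ⟨h3, h4⟩ | ⟨h3, h4⟩
      · rw [h3]
        exact ⟨by omega, h4⟩
      · rw [h3]
        exact ⟨by omega, h4⟩
  · rintro ⟨h1, h2, h3⟩
    refine ⟨h1 0 (by omega), h1 1 (by omega), ?_⟩
    obtain h | h : y 0 = 0 ∨ y 0 = 1 := by omega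
    · left
      rw [h] at h3
      exact ⟨h, h3⟩
    · right
      rw [h] at h3
      exact ⟨h, h3⟩

theorem side_tot (f g : Problem) (s : ℕ) :
    side (Tot (U f)) (Tot (U g)) s = Tot (U (side f g s)) := by
  unfold side
  split_ifs <;> rfl

/-- the coded parameter -/
def PP (N t d : ℕ) (x : ℕ → ℕ) : ℕ → ℕ := fun n => if n < N then 0 else
  if n = N then 1 + Nat.pair t d else x (n - N - 1)

/-- the digits of the instance of the meet with parameter `PP` -/
def ppG (N t d c s : ℕ) (x : ℕ × ℕ) : ℕ :=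
  uG (x.1, if x.1 = 0 then c else if x.1 = 1 then s else if x.1 - 2 < N then 0 else
    if x.1 - 2 = N then 1 + Nat.pair t d else x.2)

theorem ppG_comp {α : Type*} [Primcodable α] (N t d c s : ℕ) {f g : α → ℕ} (hf : Computable f)
    (hg : Computable g) : Computable fun a => ppG N t d c s (f a, g a) := by
  refine uG_comp (by fun_prop) ?_
  refine RE.cite (RE.cp_eq (by fun_prop) (by fun_prop)) (by fun_prop) ?_
  refine RE.cite (RE.cp_eq (by fun_prop) (by fun_prop)) (by fun_prop) ?_
  refine RE.cite (RE.cp_lt (by fun_prop) (by fun_prop)) (by fun_prop) ?_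
  exact RE.cite (RE.cp_eq (by fun_prop) (by fun_prop)) (by fun_prop) (by fun_prop)

theorem uu_PP (N t d c s : ℕ) (x : ℕ → ℕ) (n : ℕ) :
    uu (cons c (cons s (PP N t d x))) n = ppG N t d c s (n, x (n - 2 - N - 1)) := by
  rw [uu_eq]
  unfold ppG
  congr 2
  rcases n with _ | _ | n
  · rfl
  · rfl
  · simp [PP]

theorem bas_PP (N t d c s : ℕ) {F : ℕ → ℕ} (hF : Computable F) :
    Bas fun x => uu (cons c (cons s (PP N t d fun n => F (x n)))) :=
  ⟨fun x => ppG N t d c s (x.1, F x.2.1), fun n => n - 2 - N - 1, fun n => n,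
    ppG_comp N t d c s (by fun_prop) (by fun_prop), by fun_prop, by fun_prop,
    fun _ _ => uu_PP _ _ _ _ _ _ _⟩

theorem Dr_PP (N t d c s : ℕ) (x : ℕ → ℕ) :
    Dr (cons c (cons s (PP N t d x))) (cons t (cons d x)) := by
  refine ⟨N, t, d, fun j hj => ?_, ?_, ?_⟩
  · rw [Nat.add_comm]
    show PP N t d x j = 0
    simp [PP, hj]
  · rw [Nat.add_comm]
    show PP N t d x N = _
    simp [PP]
  · congr 2
    funext n
    have h : 3 + N + n = N + 1 + n + 1 + 1 := by omega
    rw [h]
    show x n = PP N t d x (N + 1 + n)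
    unfold PP
    rw [if_neg (by omega), if_neg (by omega)]
    congr 1
    omega

/-- The main argument. -/
theorem key {f g m : Problem} (hm : Wle m (meet f g))
    (h : Wle (meet (Tot (U f)) (Tot (U g))) (Tot m)) : Wle f g ∨ Wle g f := by
  obtain ⟨K, L, hK, hL, hm⟩ := hm
  obtain ⟨H, Ψ, hH, hΨ, h⟩ := h
  obtain ⟨Z0, hZ0, hZ0'⟩ := cfl_R0 hH hK
  obtain ⟨Z1, hZ1, hZ1'⟩ := (cfl_R1 hH hL hΨ).pre bas_rearr
  obtain ⟨c, hc0, hc1⟩ := exists_index hZ0 hZ1
  -- the functionals with index `c`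
  have hV0 : ∀ π y, R0 H K (cons c π) y → Computes (V c 0) π y := fun π y hy =>
    hc0 π y (hZ0' _ _ hy)
  have hV1 : ∀ A q y, R1 H L Ψ (pr (cons c A) q) y → Computes (V c 1) (pr A q) y := by
    intro A q y hy
    apply hc1
    apply hZ1'
    show R1 H L Ψ (rearr (cons c (pr A q))) y
    have : rearr (cons c (pr A q)) = pr (cons c A) q := by
      simp [rearr]
    rw [this]
    exact hy
  -- the reduction on the instances with index `c`
  have hmn : ∀ u, (meet (Tot (U f)) (Tot (U g)) u).Nonempty := fun u =>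
    meet_nonempty.2 ⟨tot_nonempty _ _, tot_nonempty _ _⟩
  have huu : ∀ s < 2, ∀ s' P, cmp s (uu (cons c (cons s' P))) = cons c (cons s P) := by
    intro s hs s' P
    obtain rfl | rfl : s = 0 ∨ s = 1 := by omega
    · simp [cmp, uu]
    · simp [cmp, uu]
  obtain ⟨y1, -, ⟨s1, hs1⟩, hy1⟩ := h (uu (cons c (cons 0 fun _ => 0))) (hmn _)
  obtain ⟨v1, hv1, hv1'⟩ := hy1 s1 hs1
  rw [mem_meet] at hv1
  obtain ⟨k0, hk0⟩ := (hv1' 0 (v1 0)).1 rfl
  obtain ⟨k1, hk1⟩ := (hv1' 1 (v1 1)).1 rfl
  generalize hN : max k0 k1 = N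
  generalize hlam : v1 0 = lam at hv1 hk0
  have hlam2 := hv1.2.1
  clear hv1
  -- the reduction
  have main : Wle (side f g lam) (side f g (1 - lam)) := by
    have r1 : Cfl fun x z => ∃ y, Computes H (uu (cons c (cons 0 (PP N lam (v1 1 + 1) x)))) y ∧
        ∃ τ, Computes K y τ ∧ z = cmp (1 - lam) τ := by
      have e1 : Cfl fun x y => Computes H (uu (cons c (cons 0 (PP N lam (v1 1 + 1) x)))) y :=
        (cfl_of_ce hH).pre (bas_PP _ _ _ _ _ (F := fun v => v) (by fun_prop))
      have e2 : Bas (cmp (1 - lam)) := by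
        unfold cmp
        split_ifs
        · exact bas_fst
        · exact bas_snd
      exact e1.comp ((cfl_of_ce hK).comp e2.cfl)
    have r2 : Cfl fun w z => ∃ y,
        Computes H (uu (cons c (cons 0 (PP N lam (v1 1 + 1) (fst w))))) y ∧
        ∃ s, Computes L (pr y (cons (1 - lam) (snd w))) s ∧
        ∃ v, Computes Ψ (pr (uu (cons c (cons 0 (PP N lam (v1 1 + 1) (fst w))))) s) v ∧
        z = tl (tl v) := by
      have e1 : Cfl fun w y =>
          Computes H (uu (cons c (cons 0 (PP N lam (v1 1 + 1) (fst w))))) y :=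
        (cfl_of_ce hH).pre (bas_PP _ _ _ _ _ (F := fun v => v.unpair.1) (by fun_prop))
      have e2 : Cfl fun E s => Computes L (pr (snd E) (cons (1 - lam) (snd (fst E)))) s := by
        refine (cfl_of_ce hL).pre ⟨fun x => Nat.pair x.2.1.unpair.2 (if x.1 = 0 then 1 - lam else
          x.2.2.unpair.1.unpair.2), fun n => n, fun n => n - 1, ?_, by fun_prop, by fun_prop,
          fun p n => ?_⟩
        · have h : Computable fun x : ℕ × ℕ × ℕ => if x.1 = 0 then 1 - lam else
              x.2.2.unpair.1.unpair.2 :=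
            RE.cite (RE.cp_eq (by fun_prop) (by fun_prop)) (by fun_prop) (by fun_prop)
          fun_prop
        · cases n with
          | zero => rfl
          | succ n => simp [pr, fst, snd]
      have e3 : Cfl fun E v => Computes Ψ (pr (uu (cons c (cons 0 (PP N lam (v1 1 + 1)
          (fst (fst (fst E))))))) (snd E)) v := by
        refine (cfl_of_ce hΨ).pre ⟨fun x => Nat.pair (ppG N lam (v1 1 + 1) c 0
          (x.1, x.2.1.unpair.1.unpair.1.unpair.1)) x.2.2.unpair.2, fun n => n - 2 - N - 1,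
          fun n => n, ?_, by fun_prop, by fun_prop, fun p n => ?_⟩
        · have h : Computable fun x : ℕ × ℕ × ℕ => ppG N lam (v1 1 + 1) c 0
              (x.1, x.2.1.unpair.1.unpair.1.unpair.1) :=
            ppG_comp _ _ _ _ _ (by fun_prop) (by fun_prop)
          fun_prop
        · show Nat.pair (uu _ n) _ = _
          rw [uu_PP]
          rfl
      have e4 : Cfl fun E z => z = tl (tl (snd E)) := by
        refine Bas.cfl ⟨fun x => x.2.1.unpair.2, fun n => n + 1 + 1, fun n => n, by fun_prop,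
          by fun_prop, by fun_prop, fun _ _ => rfl⟩
      refine (e1.bind (e2.bind (e3.bind e4))).mono ?_
      rintro w z ⟨y, h1, s, h2, v, h3, h4⟩
      exact ⟨y, h1, s, by simpa using h2, v, by simpa using h3, by simpa using h4⟩
    refine Wle.intro r1 r2 fun x hx => ?_
    -- the instance of the meet
    generalize hd : v1 1 + 1 = d
    generalize hP : PP N lam d x = P
    obtain ⟨y, hHy, -, hy⟩ := h (uu (cons c (cons 0 P))) (hmn _)
    have hDr : ∀ s, Dr (cons c (cons s P)) (cons lam (cons d x)) := by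
      intro s
      rw [← hP]
      exact Dr_PP _ _ _ _ _ _
    -- the side of the label `lam`
    have hlamside : ∀ v ∈ Tot (U (side f g lam)) (cmp lam (uu (cons c (cons 0 P)))),
        ∃ a ∈ side f g lam x, v = cons d a := by
      intro v hv
      rw [huu lam hlam2] at hv
      have a1 : Computes (V c 0) (cons lam P) x :=
        hV0 _ _ ⟨_, hDr lam, Or.inl ⟨rfl, rfl⟩⟩
      have a2 : ∀ q, Computes (V c 1) (pr (cons lam P) q) (cons d q) := by
        intro q
        apply hV1
        refine ⟨_, by simpa using hDr lam, Or.inl ⟨by simp, by simp⟩⟩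
      have a3 : v ∈ U (side f g lam) (cons c (cons lam P)) := by
        apply hv
        obtain ⟨q, hq⟩ := hx
        exact ⟨cons d q, x, a1, fun q _ => ⟨_, a2 q⟩, q, hq, a2 q⟩
      obtain ⟨x', b1, -, q, b2, b3⟩ := a3
      obtain rfl : x = x' := a1.unique b1
      exact ⟨q, b2, (b3.unique (a2 q))⟩
    -- the query is an instance of `m`
    have hmy : (m y).Nonempty := by
      by_contra hmy
      obtain ⟨v, hv, hv'⟩ := hy s1 fun hne => absurd hne hmy
      have e1 : ∀ i k, k ≤ N → (seg (pr (uu (cons c (cons 0 fun _ => 0))) s1) k, i, v1 i) ∈ Ψ →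
          v i = v1 i := by
        intro i k hk hi
        refine (hv' i _).2 ⟨k, ?_⟩
        have : seg (pr (uu (cons c (cons 0 P))) s1) k =
            seg (pr (uu (cons c (cons 0 fun _ => 0))) s1) k := by
          refine seg_congr fun j hj => ?_
          show Nat.pair (uu _ j) _ = Nat.pair (uu _ j) _
          congr 1
          rw [← hP, uu_eq, uu_eq]
          congr 2
          rcases j with _ | _ | j
          · rfl
          · rfl
          · show PP N lam d x j = 0
            unfold PP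
            rw [if_pos (by omega)]
        rw [this]
        exact hi
      have e2 : v 0 = lam := by
        rw [e1 0 k0 (by omega) (by rw [hlam]; exact hk0), hlam]
      have e3 : v 1 = v1 1 := e1 1 k1 (by omega) hk1
      rw [mem_meet, e2, side_tot] at hv
      obtain ⟨a, -, ha⟩ := hlamside _ hv.2.2
      have e4 : v 1 = d := congrFun ha 0
      omega
    obtain ⟨τ, hKτ, hτ, hτ'⟩ := hm y hmy
    obtain ⟨r0, hr0⟩ := hτ
    have hτ1 := (mem_meet.1 hr0).1
    have hlam3 : 1 - lam < 2 := by omega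
    refine ⟨cmp (1 - lam) τ, ⟨y, hHy, τ, hKτ, rfl⟩, hτ1 _ hlam3, ?_⟩
    -- the answers
    have hans : ∀ b ∈ side f g (1 - lam) (cmp (1 - lam) τ), ∃ s,
        Computes L (pr y (cons (1 - lam) b)) s ∧
        ∃ v ∈ meet (Tot (U f)) (Tot (U g)) (uu (cons c (cons 0 P))),
          Computes Ψ (pr (uu (cons c (cons 0 P))) s) v := by
      intro b hb
      obtain ⟨s, hs, hs'⟩ := hτ' (cons (1 - lam) b) (mem_meet.2 ⟨hτ1, hlam3, hb⟩)
      exact ⟨s, hs', hy s fun _ => hs⟩
    -- the other side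
    have hne : lam ≠ 1 - lam := by omega
    have a1 : Computes (V c 0) (cons (1 - lam) P) (cmp (1 - lam) τ) := by
      apply hV0
      refine ⟨_, hDr (1 - lam), Or.inr ⟨hne, y, ?_, τ, hKτ, rfl⟩⟩
      exact hHy
    have a2 : ∀ b s v, Computes L (pr y (cons (1 - lam) b)) s →
        Computes Ψ (pr (uu (cons c (cons 0 P))) s) v →
        Computes (V c 1) (pr (cons (1 - lam) P) b) (out (1 - lam) v) := by
      intro b s v h1 h2
      apply hV1
      refine ⟨cons lam (cons d x), by simpa using hDr (1 - lam), Or.inr ⟨?_, y, ?_, s, ?_, v, ?_, ?_⟩⟩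
      · simpa using hne
      · simpa [uu] using hHy
      · simpa using h1
      · simpa [uu] using h2
      · simp
    have a3 : ∀ v ∈ Tot (U (side f g (1 - lam))) (cmp (1 - lam) (uu (cons c (cons 0 P)))),
        ∃ b ∈ side f g (1 - lam) (cmp (1 - lam) τ), ∃ s v',
        Computes L (pr y (cons (1 - lam) b)) s ∧ Computes Ψ (pr (uu (cons c (cons 0 P))) s) v' ∧
        v = out (1 - lam) v' := by
      intro v hv
      rw [huu _ hlam3] at hv
      have b0 : v ∈ U (side f g (1 - lam)) (cons c (cons (1 - lam) P)) := by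
        apply hv
        obtain ⟨b, hb⟩ := hτ1 _ hlam3
        obtain ⟨s, hs, v', -, hv'⟩ := hans b hb
        refine ⟨out (1 - lam) v', cmp (1 - lam) τ, a1, fun q hq => ?_, b, hb, a2 b s v' hs hv'⟩
        obtain ⟨s, hs, v', -, hv'⟩ := hans q hq
        exact ⟨_, a2 q s v' hs hv'⟩
      obtain ⟨z, b1, -, b, b2, b3⟩ := b0
      obtain rfl := a1.unique b1
      obtain ⟨s, hs, v', -, hv'⟩ := hans b b2
      exact ⟨b, b2, s, v', hs, hv', b3.unique (a2 b s v' hs hv')⟩
    have hind : ∀ r, ∀ b ∈ side f g (1 - lam) (cmp (1 - lam) τ), ∀ s v,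
        Computes L (pr y (cons (1 - lam) b)) s → Computes Ψ (pr (uu (cons c (cons 0 P))) s) v →
        out (1 - lam) v 0 = r → tl (tl v) ∈ side f g lam x := by
      intro r
      induction r using Nat.strong_induction_on with
      | _ r ih =>
        intro b hb s v h1 h2 h3
        have hv : v ∈ meet (Tot (U f)) (Tot (U g)) (uu (cons c (cons 0 P))) := by
          obtain ⟨s', h4, v', h5, h6⟩ := hans b hb
          obtain rfl := h1.unique h4
          obtain rfl := h2.unique h6
          exact h5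
        rw [mem_meet] at hv
        obtain ⟨-, h4, h5⟩ := hv
        by_cases h6 : v 0 = lam
        · rw [h6, side_tot] at h5
          obtain ⟨a, ha, ha'⟩ := hlamside _ h5
          rw [ha', tl_cons]
          exact ha
        · have h7 : v 0 = 1 - lam := by omega
          rw [h7, side_tot] at h5
          obtain ⟨b', hb', s', v', h8, h9, h10⟩ := a3 _ h5
          have h11 : out (1 - lam) v 0 = v 1 + 1 := if_pos h7
          have h12 : v 1 = out (1 - lam) v' 0 := congrFun h10 0
          have h13 := ih (out (1 - lam) v' 0) (by omega) b' hb' s' v' h8 h9 rfl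
          rw [h10]
          exact h13
    intro b hb
    obtain ⟨s, hs, v, -, hv⟩ := hans b hb
    refine ⟨tl (tl v), hind _ b hb s v hs hv rfl, y, ?_, s, ?_, v, ?_, rfl⟩
    · rw [fst_pr, hP]
      exact hHy
    · simpa using hs
    · rw [fst_pr, hP]
      exact hv
  obtain rfl | rfl : lam = 0 ∨ lam = 1 := by omega
  · exact Or.inl main
  · exact Or.inr main

/-- The totalizing jump exists, and if `f` and `g` are not comparable then the totalizing jump of their
meet is strictly below the meet of their totalizing jumps. -/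
theorem result : (∀ f, ∃ h, IsTJ f h) ∧
    ∀ f g hf hg hm, IsTJ f hf → IsTJ g hg → IsTJ (meet f g) hm → ¬ Wle f g → ¬ Wle g f →
      Wle hm (meet hf hg) ∧ ¬ Wle (meet hf hg) hm := by
  refine ⟨fun f => ⟨_, isTJ_U f⟩, fun f g hf hg hm h1 h2 h3 h4 h5 => ?_⟩
  obtain ⟨⟨m, h6, h7⟩, -⟩ := h3
  have h8 : Wle (Tot (U f)) hf := h1.2 _ ⟨U_le f, le_U f⟩
  have h9 : Wle (Tot (U g)) hg := h2.2 _ ⟨U_le g, le_U g⟩
  refine ⟨h7.1.trans (le_meet ?_ ?_), fun h => ?_⟩
  · exact (tot_le_tot_U (h6.1.trans (meet_le_left f g))).trans h8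
  · exact (tot_le_tot_U (h6.1.trans (meet_le_right f g))).trans h9
  · rcases key h6.1 (((meet_mono h8 h9).trans h).trans h7.1) with h10 | h10
    · exact h4 h10
    · exact h5 h10

end Pool.Agent.Results.MP_1d3aa8_lc.NoDistributivity
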